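import Pool.Agent.V5helper57.OT.Stm

set_option autoImplicit false

namespace Pool.Agent.V5helper74.OT

open Pool.Agent.V5helper57.OT Finset

theorem nest {α β : Type} (A : Finset α) (B : α → Finset β) (a b : ℕ) (ha : a ≤ A.card)
    (hb : ∀ x ∈ A, b ≤ (B x).card) : a * b ≤ (A.sigma B).card := by
  rw [Finset.card_sigma]
  calc a * b ≤ A.card * b := Nat.mul_le_mul_right _ ha
    _ = ∑ x ∈ A, b := by rw [Finset.sum_const, smul_eq_mul]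
    _ ≤ _ := Finset.sum_le_sum hb

theorem cof {p : ℕ} [Fact p.Prime] (S : Finset (ZMod p)) (k : ℕ) (hS : S.card ≤ k) : p - k ≤ Sᶜ.card := by
  rw [Finset.card_compl, ZMod.card]
  omega

/-- the zeros of a quadratic polynomial -/
theorem quad {F : Type} [Field F] [DecidableEq F] (a b c : F) (ha : a ≠ 0) :
    ∃ S : Finset F, S.card ≤ 2 ∧ ∀ y, y ∉ S → a * y ^ 2 + b * y + c ≠ 0 := by
  obtain ⟨P, hP⟩ : ∃ P : Polynomial F, P = Polynomial.C a * Polynomial.X ^ 2 + Polynomial.C b * Polynomial.X +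
    Polynomial.C c := ⟨_, rfl⟩
  have hd : P.natDegree = 2 := by rw [hP]; exact Polynomial.natDegree_quadratic ha
  have h0 : P ≠ 0 := by
    intro h
    rw [h] at hd
    simp at hd
  refine ⟨P.roots.toFinset, ?_, ?_⟩
  · refine (Multiset.toFinset_card_le _).trans ((Polynomial.card_roots' _).trans hd.le)
  · intro y hy h
    apply hy
    rw [Multiset.mem_toFinset, Polynomial.mem_roots h0]
    show P.eval y = 0
    rw [hP]
    simpa using h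

theorem phi_eq {F : Type} [Field F] (b01 b02 b10 b12 b20 b21 c0 c1 : F) : ∃ b c : F, ∀ c2 : F,
    Phi b01 b02 b10 b12 b20 b21 c0 c1 c2 = (b10 * (b01 - b21) + b01 * (b20 - b10)) ^ 2 * c2 ^ 2 + b * c2 + c := by
  refine ⟨2 * (b10 * (b01 - b21) + b01 * (b20 - b10)) * ((b10 * c1 + b01 * c0) * (b12 - b02) +
      b02 * c0 * (b01 - b21) + b12 * c1 * (b20 - b10)) + ((b20 - b10) * (b01 - b21) * (b12 - b02) -
      4 * (b01 * b10 * (b12 - b02) + b02 * b10 * (b01 - b21) + b01 * b12 * (b20 - b10))) *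
      (c0 * (b01 - b21) + c1 * (b20 - b10)),
    ((b10 * c1 + b01 * c0) * (b12 - b02) +
      b02 * c0 * (b01 - b21) + b12 * c1 * (b20 - b10)) ^ 2 + ((b20 - b10) * (b01 - b21) * (b12 - b02) -
      4 * (b01 * b10 * (b12 - b02) + b02 * b10 * (b01 - b21) + b01 * b12 * (b20 - b10))) *
      (c0 * c1 * (b12 - b02)), fun c2 => ?_⟩
  unfold Phi
  ring

/-- the choice of `c2` -/
theorem last {p : ℕ} [Fact p.Prime] (b01 b02 b10 b12 b20 b21 c0 c1 : ZMod p) (h20 : b20 ≠ 0) (h21 : b21 ≠ 0)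
    (hr : b10 * (b01 - b21) + b01 * (b20 - b10) ≠ 0) : ∃ S : Finset (ZMod p), p - 4 ≤ S.card ∧
      ∀ c2 ∈ S, b02 * c0 ≠ b20 * c2 ∧ b12 * c1 ≠ b21 * c2 ∧ Phi b01 b02 b10 b12 b20 b21 c0 c1 c2 ≠ 0 := by
  classical
  obtain ⟨b, c, hbc⟩ := phi_eq b01 b02 b10 b12 b20 b21 c0 c1
  obtain ⟨S, hS, hS2⟩ := quad _ b c (pow_ne_zero 2 hr)
  refine ⟨(insert (b02 * c0 / b20) (insert (b12 * c1 / b21) S))ᶜ, cof _ 4 ?_, fun c2 hc => ?_⟩
  · have h1 := Finset.card_insert_le (b02 * c0 / b20) (insert (b12 * c1 / b21) S)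
    have h2 := Finset.card_insert_le (b12 * c1 / b21) S
    omega
  · rw [Finset.mem_compl, Finset.mem_insert, Finset.mem_insert, not_or, not_or] at hc
    obtain ⟨h1, h2, h3⟩ := hc
    refine ⟨fun h => h1 ?_, fun h => h2 ?_, ?_⟩
    · rw [h]; field_simp
    · rw [h]; field_simp
    · rw [hbc]
      exact hS2 _ h3

/-- the choice of `b21` -/
theorem mid {p : ℕ} [Fact p.Prime] (b01 b10 b20 c0 c1 : ZMod p) (h20 : b20 ≠ 0) (hg : b01 * c0 ≠ b10 * c1) :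
    ∃ S : Finset (ZMod p), p - 3 ≤ S.card ∧
      ∀ b21 ∈ S, b21 ≠ 0 ∧ b01 ≠ b21 ∧ b10 * (b01 - b21) + b01 * (b20 - b10) ≠ 0 := by
  classical
  refine ⟨({0, b01, b01 * b20 / b10} : Finset (ZMod p))ᶜ, cof _ 3 ?_, fun b21 hb => ?_⟩
  · exact Finset.card_le_three
  · simp only [Finset.mem_compl, Finset.mem_insert, Finset.mem_singleton, not_or] at hb
    obtain ⟨h1, h2, h3⟩ := hb
    refine ⟨h1, fun h => h2 h.symm, fun h => ?_⟩
    by_cases h10 : b10 = 0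
    · subst h10
      have h01 : b01 ≠ 0 := by
        rintro rfl
        exact hg (by ring)
      have h5 : b01 * b20 = 0 := by linear_combination h
      exact (mul_ne_zero h01 h20) h5
    · apply h3
      rw [eq_div_iff h10]
      linear_combination -h

/-- division by a constant -/
theorem dv {p : ℕ} [Fact p.Prime] (S : Finset (ZMod p)) (u : ZMod p) (hu : u ≠ 0) :
    ∃ S' : Finset (ZMod p), S'.card = S.card ∧ ∀ x ∈ S', x / u ∈ S := by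
  classical
  refine ⟨S.image (fun y => y * u), ?_, fun x hx => ?_⟩
  · exact Finset.card_image_of_injective _ fun a b h => mul_right_cancel₀ hu h
  · obtain ⟨y, hy, rfl⟩ := Finset.mem_image.1 hx
    rwa [mul_div_cancel_right₀ _ hu]

theorem t_CNT : S_CNT := by
  intro p _ hp b01 b10 c0 c1 u0 u1 hu0 hu1 hg
  classical
  -- the sets
  have e0 : ∃ S0 : Finset (ZMod p), p - 1 ≤ S0.card ∧ ∀ s ∈ S0, s ≠ 0 :=
    ⟨({0} : Finset (ZMod p))ᶜ, cof _ 1 (by simp), fun s hs => by simpa using hs⟩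
  obtain ⟨S0, a0, b0⟩ := e0
  have e1 : ∀ s0 : ZMod p, ∃ S1 : Finset (ZMod p), s0 ≠ 0 → (p - 2 ≤ S1.card ∧ ∀ s1 ∈ S1, s1 / s0 ≠ 0 ∧ s1 / s0 ≠ b10) := by
    intro s0
    by_cases h : s0 = 0
    · exact ⟨∅, fun h1 => absurd h h1⟩
    obtain ⟨S', h1, h2⟩ := dv (({0, b10} : Finset (ZMod p))ᶜ) s0 h
    refine ⟨S', fun _ => ⟨?_, fun s1 hs1 => ?_⟩⟩
    · rw [h1]
      exact cof _ 2 Finset.card_le_two
    · have h3 := h2 s1 hs1
      simpa only [Finset.mem_compl, Finset.mem_insert, Finset.mem_singleton, not_or] using h3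
  choose S1 hS1 using e1
  have e2 : ∀ s0 s1 : ZMod p, ∃ S2 : Finset (ZMod p), s0 ≠ 0 → s1 / s0 ≠ 0 → (p - 3 ≤ S2.card ∧
      ∀ s2 ∈ S2, s2 / s0 ≠ 0 ∧ b01 ≠ s2 / s0 ∧ b10 * (b01 - s2 / s0) + b01 * (s1 / s0 - b10) ≠ 0) := by
    intro s0 s1
    by_cases h : s0 = 0
    · exact ⟨∅, fun h1 => absurd h h1⟩
    by_cases h' : s1 / s0 = 0
    · exact ⟨∅, fun _ h1 => absurd h' h1⟩
    obtain ⟨S, h3, h4⟩ := mid b01 b10 (s1 / s0) c0 c1 h' hg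
    obtain ⟨S', h1, h2⟩ := dv S s0 h
    exact ⟨S', fun _ _ => ⟨by rw [h1]; exact h3, fun s2 hs2 => h4 _ (h2 _ hs2)⟩⟩
  choose S2 hS2 using e2
  have e4 : ∀ w1 : ZMod p, ∃ S4 : Finset (ZMod p), p - 1 ≤ S4.card ∧ ∀ w2 ∈ S4, w2 / u1 ≠ w1 / u0 := by
    intro w1
    obtain ⟨S', h1, h2⟩ := dv (({w1 / u0} : Finset (ZMod p))ᶜ) u1 hu1
    refine ⟨S', ?_, fun w2 hw2 => ?_⟩
    · rw [h1]
      exact cof _ 1 (by simp)
    · simpa using h2 _ hw2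
  choose S4 a4 b4 using e4
  have e5 : ∀ s0 s1 s2 w1 w2 : ZMod p, ∃ S5 : Finset (ZMod p), s1 / s0 ≠ 0 → s2 / s0 ≠ 0 →
      b10 * (b01 - s2 / s0) + b01 * (s1 / s0 - b10) ≠ 0 → (p - 4 ≤ S5.card ∧
      ∀ w0 ∈ S5, w1 / u0 * c0 ≠ s1 / s0 * w0 ∧ w2 / u1 * c1 ≠ s2 / s0 * w0 ∧
        Phi b01 (w1 / u0) b10 (w2 / u1) (s1 / s0) (s2 / s0) c0 c1 w0 ≠ 0) := by
    intro s0 s1 s2 w1 w2
    by_cases h1 : s1 / s0 = 0
    · exact ⟨∅, fun h => absurd h1 h⟩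
    by_cases h2 : s2 / s0 = 0
    · exact ⟨∅, fun _ h => absurd h2 h⟩
    by_cases h3 : b10 * (b01 - s2 / s0) + b01 * (s1 / s0 - b10) = 0
    · exact ⟨∅, fun _ _ h => absurd h3 h⟩
    obtain ⟨S, h4, h5⟩ := last b01 (w1 / u0) b10 (w2 / u1) (s1 / s0) (s2 / s0) c0 c1 h1 h2 h3
    exact ⟨S, fun _ _ _ => ⟨h4, h5⟩⟩
  choose S5 hS5 using e5
  obtain ⟨T, hT⟩ : ∃ T : Finset (Σ _ : ZMod p, Σ _ : ZMod p, Σ _ : ZMod p, Σ _ : ZMod p, Σ _ : ZMod p, ZMod p),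
      T = S0.sigma fun s0 => (S1 s0).sigma fun s1 => (S2 s0 s1).sigma fun s2 => (univ : Finset (ZMod p)).sigma fun w1 =>
        (S4 w1).sigma fun w2 => S5 s0 s1 s2 w1 w2 := ⟨_, rfl⟩
  have hcard : (p - 1) * ((p - 2) * ((p - 3) * (p * ((p - 1) * (p - 4))))) ≤ T.card := by
    rw [hT]
    refine nest _ _ _ _ a0 fun s0 h0 => ?_
    have h0' := b0 s0 h0
    obtain ⟨a1, b1⟩ := hS1 s0 h0'
    refine nest _ _ _ _ a1 fun s1 h1 => ?_
    obtain ⟨h1', h1''⟩ := b1 s1 h1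
    obtain ⟨a2, b2⟩ := hS2 s0 s1 h0' h1'
    refine nest _ _ _ _ a2 fun s2 h2 => ?_
    obtain ⟨h2', h2'', h2'''⟩ := b2 s2 h2
    refine nest _ _ _ _ (by rw [Finset.card_univ, ZMod.card]) fun w1 _ => ?_
    refine nest _ _ _ _ (a4 w1) fun w2 _ => ?_
    exact (hS5 s0 s1 s2 w1 w2 h1' h2' h2''').1
  refine hcard.trans ?_
  refine Finset.card_le_card_of_injOn (fun t => (![t.2.2.2.2.2, t.2.2.2.1, t.2.2.2.2.1], ![t.1, t.2.1, t.2.2.1])) ?_ ?_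
  · rintro ⟨s0, s1, s2, w1, w2, w0⟩ ht
    rw [hT] at ht
    simp only [Finset.coe_sigma, Set.mem_sigma_iff, Finset.mem_coe, Finset.mem_sigma] at ht
    obtain ⟨h0, h1, h2, h3, h4, h5⟩ := ht
    have h0' := b0 s0 h0
    obtain ⟨a1, b1⟩ := hS1 s0 h0'
    obtain ⟨h1', h1''⟩ := b1 s1 h1
    obtain ⟨a2, b2⟩ := hS2 s0 s1 h0' h1'
    obtain ⟨h2', h2'', h2'''⟩ := b2 s2 h2
    obtain ⟨h6, h7, h8⟩ := (hS5 s0 s1 s2 w1 w2 h1' h2' h2''').2 w0 h5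
    rw [Finset.mem_coe, Finset.mem_filter]
    exact ⟨Finset.mem_univ _, h0', h1'', h2'', b4 w1 w2 h4, hg, h6, h7, h8⟩
  · rintro ⟨s0, s1, s2, w1, w2, w0⟩ _ ⟨s0', s1', s2', w1', w2', w0'⟩ _ h
    obtain ⟨h1, h2⟩ := Prod.mk.inj h
    have g0 : w0 = w0' := congrFun h1 0
    have g1 : w1 = w1' := congrFun h1 1
    have g2 : w2 = w2' := congrFun h1 2
    have g3 : s0 = s0' := congrFun h2 0
    have g4 : s1 = s1' := congrFun h2 1
    have g5 : s2 = s2' := congrFun h2 2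
    subst g0 g1 g2 g3 g4 g5
    rfl

end Pool.Agent.V5helper74.OT
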